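import Pool.Agent.V1121.OC.Main

/-!
# MP_781dd6_co: oriented cycle double covers of all Cayley graphs

Every finite Cayley graph without cut edges (equivalently: every Cayley graph with at least two
generators, counting inverses) satisfies Jaeger's oriented cycle double cover conjecture.

Proof. It suffices to colour the darts such that at every vertex the same colours enter and leave,
and opposite darts have different colours: each colour class then decomposes into directed cycles,
and none of them has length two. A generator which is not an involution gives the cycles of its
cosets in one direction, and its inverse gives the other direction. Two involutions `s, t` give the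
alternating cycles in both directions. If the number of involutions is odd, one of the following
remains.

* An involution `s` and a generator `a` which is not one. If `s` is not in `⟨s a⟩`, the closed walks
  with pattern `s, a` and the cosets of `a⁻¹` do. Otherwise `s` commutes with `a`, and the graph
  consists of prisms or of Moebius ladders with an even number of rungs.
* Three involutions `s, t, u`. If `s`, `s t`, `s t s` are not in `⟨s t u⟩`, the closed walks with
  pattern `s, t, u` do. Otherwise, up to a cyclic rotation, `s` is in `⟨s t u⟩`; then `s` commutes
  with `t u`, and either `s` is a power of `t u` and the graph consists of Moebius ladders with an even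
  number of rungs, or `t u` has odd order and the graph is bipartite.
-/

set_option autoImplicit false

open scoped Classical

namespace Pool.Agent.Results.MP_781dd6_co.CayleyGraphs

/-- Let `Γ` be a finite group and let `G` be the Cayley graph of `Γ` with respect to a set `S`: the
vertices are the elements of `Γ`, and `x`, `y` are adjacent if and only if `x⁻¹ y ∈ S` (so
`S = S⁻¹` and `1 ∉ S`). If `S` does not have exactly one element, or if `G` has no cut edge, there
is a list of directed cycles which traverses every edge exactly once in each of its two
directions. -/
theorem result (Γ : Type) [Group Γ] [Fintype Γ] (S : Set Γ) (G : SimpleGraph Γ)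
    (hG : ∀ x y : Γ, G.Adj x y ↔ x⁻¹ * y ∈ S)
    (h : S.ncard ≠ 1 ∨ ∀ u v : Γ, G.Adj u v → (G.deleteEdges {s(u, v)}).Reachable u v) :
    ∃ C : List (Σ v : Γ, G.Walk v v),
      (∀ c ∈ C, c.2.IsCycle) ∧
      ∀ u v : Γ, G.Adj u v →
        (C.map (fun c => (c.2.darts.filter (fun d => decide (d.toProd = (u, v)))).length)).sum = 1 := by
  have h1 : (1 : Γ) ∉ S := by
    intro h1
    have := (hG 1 1).mpr (by simpa using h1)
    exact G.loopless.irrefl 1 this
  have hsymm : ∀ g ∈ S, g⁻¹ ∈ S := by
    intro g hg
    have h2 : G.Adj 1 g := (hG 1 g).mpr (by simpa using hg)
    have h3 := (hG g 1).mp h2.symm
    simpa using h3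
  have hcard : S.ncard ≠ 1 := by
    rcases h with h | h
    · exact h
    · intro hc
      obtain ⟨s, rfl⟩ := Set.ncard_eq_one.mp hc
      have h2 : G.Adj 1 s := (hG 1 s).mpr (by simp)
      obtain ⟨p⟩ := h 1 s h2
      cases p with
      | nil => exact h1 rfl
      | cons h3 p =>
        rw [SimpleGraph.deleteEdges_adj] at h3
        obtain ⟨h4, h5⟩ := h3
        rw [hG, inv_one, one_mul, Set.mem_singleton_iff] at h4
        subst h4
        exact h5 rfl
  exact (Pool.Agent.V1121.OC.good_all _ S rfl hcard h1 hsymm).cover G hG

end Pool.Agent.Results.MP_781dd6_co.CayleyGraphs
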