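import Pool.Agent.H140.OCC.Main

/-!
# MP_781dd6_co: oriented covers of every multiplicity `k ≥ 2`

Let `G` be a finite simple graph without cut edges. For every `k ≥ 2` some list of directed cycles
traverses every arc of `D(G)` exactly `k` times. (The oriented cycle double cover conjecture is the
same statement with `k = 1`.)

Proof. Let `C_1, ..., C_8` be even subgraphs such that every edge is in exactly two of them (the
circuit double cover theorem of the library), and let `g_c` be an integral circulation with values
`1, -1` on `C_c` and `0` elsewhere. For every choice of signs `r_c` the half sum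
`f_r = (∑ r_c g_c) / 2` is an integral circulation with values in `{-1, 0, 1}`; at an arc of an edge
of `C_a ∩ C_b` it has the value `1` for exactly one choice of the two signs `r_a, r_b`. So if the
sign vectors `r` run through the rows of an orthogonal array of strength two with eight columns and
`4 k` rows, then every arc has the value `1` exactly `k` times. Such arrays exist for all `k ≥ 3`
(Hadamard matrices of order 12, 16 and 20). For `k = 2` take all `g_c` and all `- g_c`.
-/

set_option autoImplicit false

namespace Pool.Agent.Results.MP_781dd6_co.EveryMultiplicity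

open scoped Classical in
/-- The number of times a list of closed walks traverses the edge `uv` from `u` to `v`. -/
noncomputable def traversals {V : Type} {G : SimpleGraph V} (C : List (Σ v : V, G.Walk v v))
    (u v : V) : ℕ :=
  (C.map (fun c => (c.2.darts.filter (fun d => decide (d.toProd = (u, v)))).length)).sum

lemma tot_flatten {V : Type} {G : SimpleGraph V} (L : List (List (Σ v : V, G.Walk v v)))
    (u v : V) : Pool.Agent.TH505.OCDC.tot L.flatten u v =
      (L.map (fun C => Pool.Agent.TH505.OCDC.tot C u v)).sum := by
  induction L with
  | nil => simp [Pool.Agent.TH505.OCDC.tot]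
  | cons C L ih =>
    rw [List.flatten_cons, Pool.Agent.TH505.OCDC.tot_append, ih, List.map_cons, List.sum_cons]

/-- Let `G` be a finite simple graph without cut edges and let `k ≥ 2`. Then (1) there is a list of
directed cycles which traverses every edge exactly `k` times in each of its two directions; (2) for
`k ≥ 3` there are `4 k`, and for `k = 2` there are `16`, families of directed cycles such that no
family traverses an edge more than once in total and every edge is traversed exactly `k` times in
each of its two directions. -/
theorem result (V : Type) [Fintype V] (G : SimpleGraph V)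
    (hG : ∀ u v : V, G.Adj u v → (G.deleteEdges {s(u, v)}).Reachable u v) (k : ℕ) (hk : 2 ≤ k) :
    (∃ C : List (Σ v : V, G.Walk v v), (∀ c ∈ C, c.2.IsCycle) ∧
      ∀ u v : V, G.Adj u v → traversals C u v = k) ∧
    ∃ C : Fin (if k = 2 then 16 else 4 * k) → List (Σ v : V, G.Walk v v),
      (∀ i, ∀ c ∈ C i, c.2.IsCycle) ∧
      (∀ i, ∀ u v : V, G.Adj u v → traversals (C i) u v + traversals (C i) v u ≤ 1) ∧
      ∀ u v : V, G.Adj u v → ∑ i, traversals (C i) u v = k := by
  obtain ⟨C, h1, h2, h3⟩ := Pool.Agent.H140.OCC.main G hG k hk
  have ht : ∀ (D : List (Σ v : V, G.Walk v v)) (u v : V),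
      traversals D u v = Pool.Agent.TH505.OCDC.tot D u v := fun D u v => rfl
  refine ⟨⟨(List.ofFn C).flatten, ?_, ?_⟩, ⟨C, h1, ?_, ?_⟩⟩
  · intro c hc
    rw [List.mem_flatten] at hc
    obtain ⟨D, hD, hcD⟩ := hc
    rw [List.mem_ofFn] at hD
    obtain ⟨i, rfl⟩ := hD
    exact h1 i c hcD
  · intro u v huv
    rw [ht, tot_flatten, List.map_ofFn, List.sum_ofFn]
    exact h3 u v huv
  · intro i u v huv
    rw [ht, ht]
    exact h2 i u v huv
  · intro u v huv
    exact (Finset.sum_congr rfl (fun i _ => ht (C i) u v)).trans (h3 u v huv)

end Pool.Agent.Results.MP_781dd6_co.EveryMultiplicity
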